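import Pool.Agent.H47.L.R_seed8.W401.Cheb.Defs

/-! Mean values over the primes. -/

set_option autoImplicit false

namespace Pool.Agent.W401.Cheb

open NumberField Filter Topology Finset

lemma mem_pr {N p : ℕ} : p ∈ pr N ↔ p ≤ N ∧ p.Prime := by
  unfold pr; rw [mem_filter, mem_range, Nat.lt_succ_iff]

/-- mean value over the primes up to `N` -/
noncomputable def M (a : ℕ → ℝ) (N : ℕ) : ℝ := (∑ p ∈ pr N, a p) / (Nat.primeCounting N : ℝ)

lemma tendsto_pc : Tendsto (fun N : ℕ => (Nat.primeCounting N : ℝ)) atTop atTop :=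
  tendsto_natCast_atTop_atTop.comp Nat.tendsto_primeCounting

lemma M_add (a b : ℕ → ℝ) (N : ℕ) : M (fun p => a p + b p) N = M a N + M b N := by
  unfold M; rw [sum_add_distrib, add_div]

lemma M_smul (c : ℝ) (a : ℕ → ℝ) (N : ℕ) : M (fun p => c * a p) N = c * M a N := by
  unfold M; rw [← mul_sum, mul_div_assoc]

lemma M_sum {ι : Type*} (s : Finset ι) (a : ι → ℕ → ℝ) (N : ℕ) :
    M (fun p => ∑ i ∈ s, a i p) N = ∑ i ∈ s, M (a i) N := by
  unfold M; rw [sum_comm, sum_div]

lemma M_mono {a b : ℕ → ℝ} (h : ∀ p, p.Prime → a p ≤ b p) (N : ℕ) : M a N ≤ M b N := by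
  unfold M
  exact div_le_div_of_nonneg_right (sum_le_sum fun p hp => h p (mem_pr.mp hp).2) (Nat.cast_nonneg _)

lemma M_nonneg {a : ℕ → ℝ} (h : ∀ p, p.Prime → 0 ≤ a p) (N : ℕ) : 0 ≤ M a N := by
  unfold M
  exact div_nonneg (sum_nonneg fun p hp => h p (mem_pr.mp hp).2) (Nat.cast_nonneg _)

/-- sequences which agree at all primes not dividing `D` have the same mean values -/
lemma M_congr_tendsto {a b : ℕ → ℝ} {D : ℕ} (hD : 0 < D)
    (h : ∀ p, p.Prime → ¬ p ∣ D → a p = b p) :
    Tendsto (fun N => M a N - M b N) atTop (𝓝 0) := by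
  have h1 : ∀ N, |M a N - M b N| ≤ (∑ p ∈ D.divisors, |a p - b p|) / (Nat.primeCounting N : ℝ) := by
    intro N
    unfold M
    rw [← sub_div, abs_div, ← sum_sub_distrib, Nat.abs_cast]
    refine div_le_div_of_nonneg_right ?_ (Nat.cast_nonneg _)
    refine (abs_sum_le_sum_abs _ _).trans ?_
    have h2 : ∑ p ∈ pr N, |a p - b p| = ∑ p ∈ (pr N).filter (fun p => p ∣ D), |a p - b p| := by
      rw [sum_filter]
      refine sum_congr rfl fun p hp => ?_
      split_ifs with hpD
      · rfl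
      · rw [h p (mem_pr.mp hp).2 hpD, sub_self, abs_zero]
    rw [h2]
    refine sum_le_sum_of_subset_of_nonneg ?_ fun _ _ _ => abs_nonneg _
    intro p hp
    rw [mem_filter] at hp
    exact Nat.mem_divisors.mpr ⟨hp.2, hD.ne'⟩
  exact squeeze_zero_norm h1 (tendsto_const_nhds.div_atTop tendsto_pc)

lemma M_congr {a b : ℕ → ℝ} {D : ℕ} (hD : 0 < D)
    (h : ∀ p, p.Prime → ¬ p ∣ D → a p = b p) {c : ℝ} (hb : Tendsto (M b) atTop (𝓝 c)) :
    Tendsto (M a) atTop (𝓝 c) := by
  have := (M_congr_tendsto hD h).add hb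
  rw [zero_add] at this
  exact this.congr fun N => by ring

lemma M_one : Tendsto (M fun _ => 1) atTop (𝓝 1) := by
  refine tendsto_const_nhds.congr' ?_
  filter_upwards [eventually_ge_atTop 2] with N hN
  unfold M
  have h1 : (∑ _p ∈ pr N, (1 : ℝ)) = Nat.primeCounting N := by
    rw [sum_const, nsmul_eq_mul, mul_one]
    unfold pr Nat.primeCounting Nat.primeCounting'
    rw [Nat.count_eq_card_filter_range]
  have hp : (Nat.primeCounting N : ℝ) ≠ 0 := by
    have : Nat.primeCounting N ≠ 0 := by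
      rw [Ne, Nat.primeCounting_eq_zero_iff]
      omega
    exact_mod_cast this
  rw [h1, div_self hp]

end Pool.Agent.W401.Cheb
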